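import Mathlib

/-!
Maximal norm of a power under a spectral radius bound (MP_c71a08_an).

`M_n(r)` is determined for all `n ≥ 1` and all `0 ≤ r < 1` with `(1 + r) ^ n ≤ 2`.
-/

namespace Pool.Agent.Results.MP_c71a08_an.SmallRadiusMaximum

open Polynomial Finset

/-- The operator norm induced by the sup norm: the maximal absolute row sum. -/
noncomputable def opNorm {n : ℕ} (T : Matrix (Fin n) (Fin n) ℂ) : ℝ := ⨆ i, ∑ j, ‖T i j‖

/-- `M_n(r)`. -/
noncomputable def M (n : ℕ) (r : ℝ) : ℝ :=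
  sSup {x | ∃ T : Matrix (Fin n) (Fin n) ℂ, opNorm T ≤ 1 ∧ (∀ μ ∈ spectrum ℂ T, ‖μ‖ ≤ r) ∧
    x = opNorm (T ^ (n ^ 2 - n + 1))}

/-- The explicit value. -/
noncomputable def value (n : ℕ) (r : ℝ) : ℝ :=
  ∑ k ∈ range n, ((n ^ 2 - n + 1).choose k : ℝ) * ((n ^ 2 - n - k).choose (n - 1 - k) : ℝ) *
    r ^ (n ^ 2 - n + 1 - k)

/-- Remainders of powers of `X`. -/
noncomputable def R : List ℂ → ℕ → ℂ[X]
  | [] => fun _ => 0
  | a :: l => fun j => Nat.rec (X ^ l.length)
      (fun j p => C a * p + (X - C a) * R l (j + 1)) j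

theorem R_nil (j : ℕ) : R [] j = 0 := rfl
theorem R_zero (a : ℂ) (l : List ℂ) : R (a :: l) 0 = X ^ l.length := rfl
theorem R_succ (a : ℂ) (l : List ℂ) (j : ℕ) :
    R (a :: l) (j + 1) = C a * R (a :: l) j + (X - C a) * R l (j + 1) := rfl

/-- The majorant coefficients. -/
noncomputable def rho (r : ℝ) : ℕ → ℕ → ℕ → ℝ
  | 0 => fun _ _ => 0
  | n + 1 => fun j => Nat.rec (fun k => if k = n then 1 else 0)
      (fun j p k => r * p k + (if k = 0 then 0 else rho r n (j + 1) (k - 1)) +
        r * rho r n (j + 1) k) j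

theorem rho_nil (r : ℝ) (j k : ℕ) : rho r 0 j k = 0 := rfl
theorem rho_zero (r : ℝ) (n k : ℕ) : rho r (n + 1) 0 k = if k = n then 1 else 0 := rfl
theorem rho_succ (r : ℝ) (n j k : ℕ) :
    rho r (n + 1) (j + 1) k = r * rho r (n + 1) j k +
      (if k = 0 then 0 else rho r n (j + 1) (k - 1)) + r * rho r n (j + 1) k := rfl

theorem coeff_step (a : ℂ) (p s : ℂ[X]) (k : ℕ) :
    (C a * p + (X - C a) * s).coeff k =
      a * p.coeff k + (if k = 0 then 0 else s.coeff (k - 1)) - a * s.coeff k := by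
  rw [sub_mul, coeff_add, coeff_sub, coeff_C_mul, coeff_C_mul]
  rcases k with _ | k
  · simp
    ring
  · simp [coeff_X_mul]
    ring

theorem dvd_R : ∀ (l : List ℂ) (j : ℕ),
    (l.map (fun a => X - C a)).prod ∣ (X ^ (l.length + j) - R l (j + 1) : ℂ[X])
  | [], j => by simp
  | a :: l, j => by
      have key : ∀ j : ℕ, ((a :: l).map (fun a => X - C a)).prod ∣
          (X ^ (l.length + j) - R (a :: l) j : ℂ[X]) := by
        intro j
        induction j with
        | zero => simp [R_zero]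
        | succ j ih =>
          have e : (X ^ (l.length + (j + 1)) - R (a :: l) (j + 1) : ℂ[X]) =
              C a * (X ^ (l.length + j) - R (a :: l) j) +
              (X - C a) * (X ^ (l.length + j) - R l (j + 1)) := by
            rw [R_succ]
            ring
          rw [e]
          refine dvd_add (Dvd.dvd.mul_left ih _) ?_
          rw [List.map_cons, List.prod_cons]
          exact mul_dvd_mul_left _ (dvd_R l j)
      have := key (j + 1)
      rw [show (a :: l).length + j = l.length + (j + 1) by simp; ring]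
      exact this

theorem rho_nonneg {r : ℝ} (hr : 0 ≤ r) : ∀ n j k, 0 ≤ rho r n j k
  | 0, j, k => le_refl _
  | n + 1, j, k => by
      induction j with
      | zero => rw [rho_zero]; split_ifs <;> norm_num
      | succ j ih =>
        rw [rho_succ]
        have h1 := rho_nonneg hr n (j + 1) (k - 1)
        have h2 := rho_nonneg hr n (j + 1) k
        have h3 : 0 ≤ (if k = 0 then 0 else rho r n (j + 1) (k - 1)) := by
          split_ifs <;> [exact le_refl _; exact h1]
        positivity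

theorem rho_vanish (r : ℝ) : ∀ n j k, n ≤ k → rho r n j k = 0
  | 0, j, k, _ => rfl
  | n + 1, j, k, h => by
      induction j with
      | zero => rw [rho_zero, if_neg (by omega)]
      | succ j ih =>
        rw [rho_succ, ih, if_neg (by omega), rho_vanish r n (j + 1) (k - 1) (by omega),
          rho_vanish r n (j + 1) k (by omega)]
        ring

theorem coeff_bound {r : ℝ} (hr : 0 ≤ r) : ∀ (l : List ℂ), (∀ a ∈ l, ‖a‖ ≤ r) → ∀ j k,
    ‖(R l j).coeff k‖ ≤ rho r l.length j k
  | [], _, j, k => by simp [R_nil, rho_nil]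
  | a :: l, h, j, k => by
      have ha : ‖a‖ ≤ r := h a (by simp)
      have hl : ∀ b ∈ l, ‖b‖ ≤ r := fun b hb => h b (by simp [hb])
      rw [List.length_cons]
      induction j generalizing k with
      | zero =>
        rw [R_zero, rho_zero, coeff_X_pow]
        split_ifs <;> simp
      | succ j ih =>
        rw [R_succ, coeff_step, rho_succ]
        have h1 := ih k
        have h2 := coeff_bound hr l hl (j + 1) (k - 1)
        have h3 := coeff_bound hr l hl (j + 1) k
        refine (norm_sub_le _ _).trans (add_le_add ((norm_add_le _ _).trans (add_le_add ?_ ?_)) ?_)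
        · rw [norm_mul]
          exact mul_le_mul ha h1 (norm_nonneg _) hr
        · split_ifs
          · simp
          · exact h2
        · rw [norm_mul]
          exact mul_le_mul ha h3 (norm_nonneg _) hr

theorem coeff_eq (r : ℝ) : ∀ n j k : ℕ,
    (R (List.replicate n (r : ℂ)) j).coeff k = (-1) ^ (n + 1 + k) * (rho r n j k : ℂ)
  | 0, j, k => by simp [R_nil, rho_nil]
  | n + 1, j, k => by
      rw [List.replicate_succ]
      induction j generalizing k with
      | zero =>
        rw [R_zero, rho_zero, coeff_X_pow, List.length_replicate]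
        split_ifs with h
        · subst h
          have : ((-1 : ℂ)) ^ (k + 1 + 1 + k) = 1 := by
            rw [show k + 1 + 1 + k = 2 * (k + 1) by ring, pow_mul]
            simp
          simp [this]
        · simp
      | succ j ih =>
        rw [R_succ, coeff_step, rho_succ, ih k, coeff_eq r n (j + 1) (k - 1),
          coeff_eq r n (j + 1) k]
        rcases k with _ | k
        · simp
          ring
        · simp
          ring

theorem closed_form (r : ℝ) : ∀ n k d j : ℕ, k + d = n →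
    rho r (n + 1) j k = ((k + d + j).choose k : ℝ) * ((d + j - 1).choose d : ℝ) * r ^ (d + j) := by
  intro n
  induction n with
  | zero =>
    intro k d j h
    obtain ⟨rfl, rfl⟩ : k = 0 ∧ d = 0 := by omega
    induction j with
    | zero => simp [rho_zero]
    | succ j ih =>
      rw [rho_succ, ih, rho_nil]
      simp
      ring
  | succ n ihn =>
    intro k d j h
    induction j with
    | zero =>
      rw [rho_zero]
      rcases d with _ | d
      · rw [if_pos (by omega)]
        simp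
      · rw [if_neg (by omega)]
        have : (d + 1 + 0 - 1).choose (d + 1) = 0 := Nat.choose_eq_zero_of_lt (by omega)
        rw [this]
        simp
    | succ j ih =>
      rw [rho_succ, ih]
      rcases d with _ | d
      · rw [rho_vanish r (n + 1) (j + 1) k (by omega)]
        rcases k with _ | k
        · omega
        · rw [if_neg (by omega), Nat.add_sub_cancel, ihn k 0 (j + 1) (by omega)]
          have e : (k + 1 + 0 + (j + 1)).choose (k + 1) =
              (k + 0 + (j + 1)).choose k + (k + 1 + 0 + j).choose (k + 1) := by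
            rw [show k + 1 + 0 + (j + 1) = (k + 1 + j) + 1 by ring, Nat.choose_succ_succ,
              show k + 0 + (j + 1) = k + 1 + j by ring, show k + 1 + 0 + j = k + 1 + j by ring]
          rw [e]
          simp
          ring
      · have e2 : (d + 1 + (j + 1) - 1).choose (d + 1) =
            (d + (j + 1) - 1).choose d + (d + 1 + j - 1).choose (d + 1) := by
          rw [show d + 1 + (j + 1) - 1 = (d + j) + 1 by omega, Nat.choose_succ_succ,
            show d + (j + 1) - 1 = d + j by omega, show d + 1 + j - 1 = d + j by omega]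
        rw [ihn k d (j + 1) (by omega), e2]
        rcases k with _ | k
        · simp
          ring
        · have e : (k + 1 + (d + 1) + (j + 1)).choose (k + 1) =
              (k + (d + 1) + (j + 1)).choose k + (k + 1 + (d + 1) + j).choose (k + 1) := by
            rw [show k + 1 + (d + 1) + (j + 1) = (k + 1 + (d + 1) + j) + 1 by ring,
              Nat.choose_succ_succ,
              show k + (d + 1) + (j + 1) = k + 1 + (d + 1) + j by ring]
          rw [if_neg (by omega), Nat.add_sub_cancel, ihn k (d + 1) (j + 1) (by omega), e,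
            show k + 1 + d + (j + 1) = k + 1 + (d + 1) + j by ring, e2]
          push_cast
          ring


theorem rows_of_opNorm {n : ℕ} {T : Matrix (Fin n) (Fin n) ℂ} (h : opNorm T ≤ 1) (i : Fin n) :
    ∑ j, ‖T i j‖ ≤ 1 :=
  (le_ciSup (f := fun i => ∑ j, ‖T i j‖) (Set.finite_range _).bddAbove i).trans h

theorem rows_pow {n : ℕ} {T : Matrix (Fin n) (Fin n) ℂ} (h : ∀ i, ∑ j, ‖T i j‖ ≤ 1) (k : ℕ) :
    ∀ i, ∑ j, ‖(T ^ k) i j‖ ≤ 1 := by
  induction k with
  | zero =>
    intro i
    rw [pow_zero]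
    have : ∀ j, ‖(1 : Matrix (Fin n) (Fin n) ℂ) i j‖ = if i = j then 1 else 0 := by
      intro j
      rw [Matrix.one_apply]
      split_ifs <;> simp
    simp [this]
  | succ k ih =>
    intro i
    rw [pow_succ']
    calc ∑ j, ‖(T * T ^ k) i j‖ ≤ ∑ j, ∑ l, ‖T i l‖ * ‖(T ^ k) l j‖ := by
          refine sum_le_sum fun j _ => ?_
          rw [Matrix.mul_apply]
          refine (norm_sum_le _ _).trans (sum_le_sum fun l _ => ?_)
          rw [norm_mul]
      _ = ∑ l, ‖T i l‖ * ∑ j, ‖(T ^ k) l j‖ := by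
          rw [sum_comm]
          refine sum_congr rfl fun l _ => ?_
          rw [mul_sum]
      _ ≤ ∑ l, ‖T i l‖ * 1 := by
          refine sum_le_sum fun l _ => ?_
          exact mul_le_mul_of_nonneg_left (ih l) (norm_nonneg _)
      _ ≤ 1 := by simpa using h i

/-- The eigenvalue list and the remainder formula. -/
theorem pow_formula {m : ℕ} (T : Matrix (Fin (m + 1)) (Fin (m + 1)) ℂ) :
    ∃ l : List ℂ, l.length = m + 1 ∧ (∀ a ∈ l, a ∈ spectrum ℂ T) ∧
      ∀ j : ℕ, (T ^ (m + 1 + j) : Matrix _ _ ℂ) =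
        ∑ k ∈ range (m + 1), (R l (j + 1)).coeff k • T ^ k := by
  have hmon : T.charpoly.Monic := Matrix.charpoly_monic T
  set l := T.charpoly.roots.toList with hl
  have hlen : l.length = m + 1 := by
    rw [hl, Multiset.length_toList, IsAlgClosed.card_roots_eq_natDegree,
      Matrix.charpoly_natDegree_eq_dim]
    simp
  have hmem : ∀ a ∈ l, a ∈ spectrum ℂ T := by
    intro a ha
    rw [hl, Multiset.mem_toList] at ha
    exact Matrix.mem_spectrum_of_isRoot_charpoly (isRoot_of_mem_roots ha)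
  have hprod : (l.map (fun a => X - C a)).prod = T.charpoly := by
    rw [(IsAlgClosed.splits T.charpoly).eq_prod_roots_of_monic hmon]
    conv_rhs => rw [← Multiset.coe_toList T.charpoly.roots]
    rw [Multiset.map_coe, Multiset.prod_coe]
  refine ⟨l, hlen, hmem, fun j => ?_⟩
  have hd := dvd_R l j
  rw [hprod] at hd
  obtain ⟨s, hs⟩ := hd
  have h0 : aeval T (X ^ (l.length + j) - R l (j + 1)) = 0 := by
    rw [hs, map_mul, Matrix.aeval_self_charpoly, zero_mul]
  rw [map_sub, map_pow, aeval_X, hlen, sub_eq_zero] at h0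
  rw [h0]
  have hdeg : (R l (j + 1)).natDegree < m + 1 := by
    rw [Nat.lt_succ_iff, natDegree_le_iff_coeff_eq_zero]
    intro N hN
    obtain ⟨r, hr0, hr⟩ : ∃ r : ℝ, 0 ≤ r ∧ ∀ a ∈ l, ‖a‖ ≤ r := by
      refine ⟨(l.map (fun a => ‖a‖)).sum, List.sum_nonneg (by simp), fun a ha => ?_⟩
      exact List.single_le_sum (by simp) _ (List.mem_map_of_mem ha)
    have := coeff_bound hr0 l hr (j + 1) N
    rw [rho_vanish r _ _ _ (by omega)] at this
    exact norm_le_zero_iff.1 this
  exact aeval_eq_sum_range' hdeg T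

theorem value_eq {m : ℕ} (r : ℝ) :
    ∑ k ∈ range (m + 1), rho r (m + 1) (m ^ 2 + 1) k = value (m + 1) r := by
  unfold value
  refine sum_congr rfl fun k hk => ?_
  have hk' : k ≤ m := by simpa [Nat.lt_succ_iff] using hk
  obtain ⟨d, rfl⟩ := Nat.exists_eq_add_of_le hk'
  rw [closed_form r (k + d) k d _ rfl]
  have e1 : (k + d + 1) ^ 2 - (k + d + 1) = (k + d) ^ 2 + (k + d) := by
    have : (k + d + 1) ^ 2 = (k + d) ^ 2 + (k + d) + (k + d + 1) := by ring
    omega
  have e2 : k + d + ((k + d) ^ 2 + 1) = (k + d) ^ 2 + (k + d) + 1 := by omega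
  have e3 : d + ((k + d) ^ 2 + 1) - 1 = (k + d) ^ 2 + (k + d) - k := by omega
  have e4 : k + d + 1 - 1 - k = d := by omega
  have e5 : d + ((k + d) ^ 2 + 1) = (k + d) ^ 2 + (k + d) + 1 - k := by omega
  rw [e1, e2, e3, e4, e5]

theorem upper {m : ℕ} {r : ℝ} (hr : 0 ≤ r) (T : Matrix (Fin (m + 1)) (Fin (m + 1)) ℂ)
    (hT : opNorm T ≤ 1) (hs : ∀ μ ∈ spectrum ℂ T, ‖μ‖ ≤ r) :
    opNorm (T ^ ((m + 1) ^ 2 - (m + 1) + 1)) ≤ value (m + 1) r := by
  obtain ⟨l, hlen, hmem, hpow⟩ := pow_formula T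
  have e1 : (m + 1) ^ 2 - (m + 1) + 1 = m + 1 + m ^ 2 := by
    have : (m + 1) ^ 2 = m ^ 2 + m + (m + 1) := by ring
    omega
  rw [e1, hpow (m ^ 2), ← value_eq]
  refine ciSup_le fun i => ?_
  have hrow := rows_pow (rows_of_opNorm hT)
  calc ∑ j, ‖(∑ k ∈ range (m + 1), (R l (m ^ 2 + 1)).coeff k • T ^ k) i j‖
      ≤ ∑ j, ∑ k ∈ range (m + 1), ‖(R l (m ^ 2 + 1)).coeff k‖ * ‖(T ^ k) i j‖ := by
        refine sum_le_sum fun j _ => ?_
        rw [Matrix.sum_apply]
        refine (norm_sum_le _ _).trans (sum_le_sum fun k _ => ?_)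
        rw [Matrix.smul_apply, smul_eq_mul, norm_mul]
    _ = ∑ k ∈ range (m + 1), ‖(R l (m ^ 2 + 1)).coeff k‖ * ∑ j, ‖(T ^ k) i j‖ := by
        rw [sum_comm]
        refine sum_congr rfl fun k _ => ?_
        rw [mul_sum]
    _ ≤ ∑ k ∈ range (m + 1), rho r (m + 1) (m ^ 2 + 1) k := by
        refine sum_le_sum fun k _ => ?_
        have h1 := coeff_bound hr l (fun a ha => hs a (hmem a ha)) (m ^ 2 + 1) k
        rw [hlen] at h1
        have h2 := hrow k i
        have h3 : 0 ≤ ∑ j, ‖(T ^ k) i j‖ := sum_nonneg fun j _ => norm_nonneg _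
        calc ‖(R l (m ^ 2 + 1)).coeff k‖ * ∑ j, ‖(T ^ k) i j‖
            ≤ ‖(R l (m ^ 2 + 1)).coeff k‖ * 1 :=
              mul_le_mul_of_nonneg_left h2 (norm_nonneg _)
          _ ≤ _ := by simpa using h1


/-- Coefficients of the last row of the companion matrix. -/
noncomputable def cc (m : ℕ) (r : ℝ) (j : ℕ) : ℂ := -((X - C (r : ℂ)) ^ (m + 1)).coeff j

/-- The companion matrix of `(X - r) ^ (m + 1)`. -/
noncomputable def A (m : ℕ) (r : ℝ) : Matrix (Fin (m + 1)) (Fin (m + 1)) ℂ :=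
  Matrix.of fun i j => if (i : ℕ) = m then cc m r j else if (j : ℕ) = i + 1 then 1 else 0

theorem A_last (m : ℕ) (r : ℝ) (i j : Fin (m + 1)) (hi : (i : ℕ) = m) :
    A m r i j = cc m r j := by
  simp [A, hi]

theorem A_other (m : ℕ) (r : ℝ) (i j : Fin (m + 1)) (hi : (i : ℕ) ≠ m) :
    A m r i j = if (j : ℕ) = i + 1 then 1 else 0 := by
  simp [A, hi]

theorem coeff_X_sub_C_pow' (r : ℂ) (n k : ℕ) :
    ((X - C r) ^ n : ℂ[X]).coeff k = (-r) ^ (n - k) * (n.choose k : ℂ) := by
  rw [sub_eq_add_neg, ← C_neg, coeff_X_add_C_pow]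

theorem cc_norm_sum {m : ℕ} {r : ℝ} (hr : 0 ≤ r) :
    ∑ j : Fin (m + 1), ‖cc m r j‖ = (1 + r) ^ (m + 1) - 1 := by
  have e : (1 + r) ^ (m + 1) =
      ∑ k ∈ range (m + 1), r ^ (m + 1 - k) * ((m + 1).choose k : ℝ) + 1 := by
    rw [add_pow, sum_range_succ (fun k => (1 : ℝ) ^ k * r ^ (m + 1 - k) *
      ((m + 1).choose k : ℝ)) (m + 1)]
    simp
  rw [Fin.sum_univ_eq_sum_range (fun j => ‖cc m r j‖) (m + 1), e, add_sub_cancel_right]
  refine sum_congr rfl fun k _ => ?_
  rw [cc, norm_neg, coeff_X_sub_C_pow', norm_mul, norm_pow, norm_neg, Complex.norm_real,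
    Complex.norm_natCast, Real.norm_of_nonneg hr]

theorem A_rows {m : ℕ} {r : ℝ} (hr : 0 ≤ r) (h2 : (1 + r) ^ (m + 1) ≤ 2) (i : Fin (m + 1)) :
    ∑ j, ‖A m r i j‖ ≤ 1 := by
  by_cases hi : (i : ℕ) = m
  · simp only [A_last m r i _ hi]
    rw [cc_norm_sum hr]
    linarith
  · have hi' : (i : ℕ) + 1 < m + 1 := by have := i.2; omega
    have : ∀ j : Fin (m + 1), ‖A m r i j‖ = if (⟨(i : ℕ) + 1, hi'⟩ : Fin (m + 1)) = j
        then 1 else 0 := by
      intro j
      rw [A_other m r i j hi]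
      by_cases hj : (j : ℕ) = i + 1
      · rw [if_pos hj, if_pos (Fin.ext hj.symm)]
        simp
      · rw [if_neg hj, if_neg (fun h => hj (by rw [← h]))]
        simp
    simp [this]

theorem A_opNorm {m : ℕ} {r : ℝ} (hr : 0 ≤ r) (h2 : (1 + r) ^ (m + 1) ≤ 2) :
    opNorm (A m r) ≤ 1 := ciSup_le fun i => A_rows hr h2 i

theorem A_spectrum {m : ℕ} {r : ℝ} {μ : ℂ} (h : μ ∈ spectrum ℂ (A m r)) : μ = r := by
  rw [spectrum.mem_iff, Matrix.isUnit_iff_isUnit_det, isUnit_iff_ne_zero, not_not] at h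
  obtain ⟨v, hv0, hv⟩ := Matrix.exists_mulVec_eq_zero_iff.2 h
  have hrow : ∀ i, μ * v i = ∑ j, A m r i j * v j := by
    intro i
    have := congrFun hv i
    rw [Matrix.sub_mulVec, Algebra.algebraMap_eq_smul_one, Matrix.smul_mulVec,
      Matrix.one_mulVec] at this
    simp only [Pi.sub_apply, Pi.smul_apply, smul_eq_mul, Pi.zero_apply] at this
    rw [sub_eq_zero] at this
    rw [this]
    rfl
  have hstep : ∀ k (hk : k < m) (hk1 : k < m + 1) (hk2 : k + 1 < m + 1),
      v ⟨k + 1, hk2⟩ = μ * v ⟨k, hk1⟩ := by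
    intro k hk hk1 hk2
    rw [hrow ⟨k, hk1⟩, sum_eq_single ⟨k + 1, hk2⟩]
    · rw [A_other m r _ _ (by simpa using hk.ne), if_pos rfl, one_mul]
    · intro j _ hj
      rw [A_other m r _ _ (by simpa using hk.ne), if_neg, zero_mul]
      exact fun h => hj (Fin.ext h)
    · intro h
      exact absurd (mem_univ _) h
  have hv' : ∀ k (hk : k < m + 1), v ⟨k, hk⟩ = μ ^ k * v 0 := by
    intro k
    induction k with
    | zero =>
      intro hk
      rw [pow_zero, one_mul]
      rfl
    | succ k ih =>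
      intro hk
      rw [hstep k (by omega) (by omega) hk, ih (by omega), pow_succ]
      ring
  have hv00 : v 0 ≠ 0 := by
    intro h0
    apply hv0
    funext i
    have := hv' i i.2
    rw [h0, mul_zero] at this
    exact this
  have hlast := hrow ⟨m, Nat.lt_succ_self m⟩
  rw [hv' m (Nat.lt_succ_self m)] at hlast
  have hsum : ∑ j, A m r ⟨m, Nat.lt_succ_self m⟩ j * v j =
      (∑ k ∈ range (m + 1), cc m r k * μ ^ k) * v 0 := by
    rw [← Fin.sum_univ_eq_sum_range (fun k => cc m r k * μ ^ k) (m + 1), sum_mul]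
    refine sum_congr rfl fun j _ => ?_
    rw [A_last m r _ _ rfl]
    have := hv' j j.2
    rw [show v j = μ ^ (j : ℕ) * v 0 from this]
    ring
  rw [hsum] at hlast
  have h3 : μ ^ (m + 1) = ∑ k ∈ range (m + 1), cc m r k * μ ^ k := by
    have : (μ ^ (m + 1) - ∑ k ∈ range (m + 1), cc m r k * μ ^ k) * v 0 = 0 := by
      rw [sub_mul, ← hlast]
      ring
    rcases mul_eq_zero.1 this with h | h
    · exact sub_eq_zero.1 h
    · exact absurd h hv00
  have h4 : (((X - C (r : ℂ)) ^ (m + 1) : ℂ[X])).eval μ = 0 := by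
    have hdeg : ((X - C (r : ℂ)) ^ (m + 1) : ℂ[X]).natDegree < m + 2 := by
      rw [natDegree_pow, natDegree_X_sub_C]
      omega
    rw [eval_eq_sum_range' hdeg, sum_range_succ]
    have h5 : ((X - C (r : ℂ)) ^ (m + 1) : ℂ[X]).coeff (m + 1) = 1 := by
      rw [coeff_X_sub_C_pow']
      simp
    rw [h5, h3, one_mul, ← sum_add_distrib]
    refine sum_eq_zero fun k _ => ?_
    unfold cc
    ring
  rw [eval_pow, eval_sub, eval_X, eval_C] at h4
  exact sub_eq_zero.1 (pow_eq_zero_iff (Nat.succ_ne_zero m) |>.1 h4)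

theorem A_pow_row {m : ℕ} {r : ℝ} : ∀ k, k ≤ m → ∀ j : Fin (m + 1),
    (A m r ^ k) 0 j = if (j : ℕ) = k then 1 else 0 := by
  intro k
  induction k with
  | zero =>
    intro _ j
    rw [pow_zero, Matrix.one_apply]
    by_cases hj : (j : ℕ) = 0
    · rw [if_pos hj, if_pos (Fin.ext hj.symm)]
    · rw [if_neg hj, if_neg (fun h => hj (by rw [← h]; rfl))]
  | succ k ih =>
    intro hk j
    rw [pow_succ, Matrix.mul_apply, sum_eq_single ⟨k, by omega⟩]
    · rw [ih (by omega), if_pos rfl, one_mul, A_other m r _ _ (by simp; omega)]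
    · intro l _ hl
      rw [ih (by omega), if_neg (fun h => hl (Fin.ext h)), zero_mul]
    · intro h
      exact absurd (mem_univ _) h

theorem lower {m : ℕ} {r : ℝ} (hr : 0 ≤ r) :
    value (m + 1) r ≤ opNorm (A m r ^ ((m + 1) ^ 2 - (m + 1) + 1)) := by
  obtain ⟨l, hlen, hmem, hpow⟩ := pow_formula (A m r)
  have hrep : l = List.replicate (m + 1) (r : ℂ) :=
    List.eq_replicate_iff.2 ⟨hlen, fun a ha => A_spectrum (hmem a ha)⟩
  have e1 : (m + 1) ^ 2 - (m + 1) + 1 = m + 1 + m ^ 2 := by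
    have : (m + 1) ^ 2 = m ^ 2 + m + (m + 1) := by ring
    omega
  rw [e1, ← value_eq]
  refine le_trans (le_of_eq ?_) (le_ciSup (f := fun i => ∑ j, ‖(A m r ^ (m + 1 + m ^ 2)) i j‖)
    (Set.finite_range _).bddAbove 0)
  rw [← Fin.sum_univ_eq_sum_range (fun k => rho r (m + 1) (m ^ 2 + 1) k) (m + 1)]
  refine sum_congr rfl fun j _ => ?_
  rw [hpow (m ^ 2), Matrix.sum_apply, sum_eq_single (j : ℕ)]
  · rw [Matrix.smul_apply, A_pow_row j (by have := j.2; omega), if_pos rfl, smul_eq_mul, mul_one,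
      hrep, coeff_eq, norm_mul, norm_pow, norm_neg, norm_one, one_pow, one_mul,
      Complex.norm_real, Real.norm_of_nonneg (rho_nonneg hr _ _ _)]
  · intro k hk hkj
    rw [Matrix.smul_apply, A_pow_row k (by have := mem_range.1 hk; omega), if_neg (Ne.symm hkj),
      smul_zero]
  · intro h
    exact absurd (mem_range.2 j.2) h

/-- **Main result.** For all `n ≥ 1` and `0 ≤ r < 1`, `M_n(r) ≤ value n r`; if moreover
`(1 + r) ^ n ≤ 2` then `M_n(r) = value n r` and it is attained by the companion matrix of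
`(X - r) ^ n`. -/
theorem result (n : ℕ) (hn : 1 ≤ n) (r : ℝ) (hr : 0 ≤ r) :
    M n r ≤ value n r ∧
    ((1 + r) ^ n ≤ 2 → M n r = value n r ∧
      opNorm (A (n - 1) r) ≤ 1 ∧ (∀ μ ∈ spectrum ℂ (A (n - 1) r), μ = r) ∧
      opNorm (A (n - 1) r ^ (n ^ 2 - n + 1)) = M n r) := by
  obtain ⟨m, rfl⟩ : ∃ m, n = m + 1 := ⟨n - 1, by omega⟩
  have hub : ∀ x ∈ {x | ∃ T : Matrix (Fin (m + 1)) (Fin (m + 1)) ℂ, opNorm T ≤ 1 ∧
      (∀ μ ∈ spectrum ℂ T, ‖μ‖ ≤ r) ∧ x = opNorm (T ^ ((m + 1) ^ 2 - (m + 1) + 1))},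
      x ≤ value (m + 1) r := by
    rintro x ⟨T, hT, hs, rfl⟩
    exact upper hr T hT hs
  have hne : {x | ∃ T : Matrix (Fin (m + 1)) (Fin (m + 1)) ℂ, opNorm T ≤ 1 ∧
      (∀ μ ∈ spectrum ℂ T, ‖μ‖ ≤ r) ∧ x = opNorm (T ^ ((m + 1) ^ 2 - (m + 1) + 1))}.Nonempty := by
    refine ⟨_, 0, ?_, ?_, rfl⟩
    · exact ciSup_le fun i => by simp
    · intro μ hμ
      rw [spectrum.zero_eq] at hμ
      rw [Set.mem_singleton_iff.1 hμ, norm_zero]
      exact hr
  refine ⟨csSup_le hne hub, fun h2 => ?_⟩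
  have hA1 := A_opNorm hr h2
  have hA2 : ∀ μ ∈ spectrum ℂ (A m r), μ = r := fun μ hμ => A_spectrum hμ
  have hA2' : ∀ μ ∈ spectrum ℂ (A m r), ‖μ‖ ≤ r := by
    intro μ hμ
    rw [hA2 μ hμ, Complex.norm_real, Real.norm_of_nonneg hr]
  have hA3 : opNorm (A m r ^ ((m + 1) ^ 2 - (m + 1) + 1)) = value (m + 1) r :=
    le_antisymm (upper hr _ hA1 hA2') (lower hr)
  have hM : M (m + 1) r = value (m + 1) r := by
    refine le_antisymm (csSup_le hne hub) ?_
    rw [← hA3]
    exact le_csSup ⟨_, hub⟩ ⟨A m r, hA1, hA2', rfl⟩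
  exact ⟨hM, hA1, hA2, by rw [hM]; exact hA3⟩

end Pool.Agent.Results.MP_c71a08_an.SmallRadiusMaximum
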